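import Pool.Agent.helper7.PQ.Spec
import Pool.Agent.helper67.TPC.SpecW

/-!
# Project tpd (MP_ebc808_nt): theorem P3, multiplicative twists

THEOREM. For every class `a` modulo `2^i` and every periodic `ρ` there are `c > 0` and `X₀` such that for EVERY multiplicative `f : ℕ → {1, -1}` and
all `X ≥ X₀`: `#{n ≤ X : n = a mod 2^i, (-1)^p(n) ≠ (-1)^ρ(n) f(24 n - 1)} ≥ c X^(3/4)/(log X)^2`. (`f = 1` is the theorem of project pq.)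

Write `f = (-1)^φ`, `φ(mn) = φ(m) + φ(n)` for coprime `m, n`. `b` odd, `B = 2^b`. Identity SUMP (project pq) for `k = A P`, `M = C R`:
`∑_u p((k (M - B u²) + 1)/24) + ∑_u p(((k - B u²) M + 1)/24) = RB b k M`. If `p(n) = ρ(n) + φ(24n-1)` for all these `n` then (`gcd = 1`) the left side is
`[a function of M] + #uB(M) φ(k) + [a function of k] + #uB(k) φ(M)`, the same functions for all `k`, `M` in fixed classes modulo `24 t`. For a QUADRUPLE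
`k₁, k₂, M₁, M₂` with all `#uB` even the sum of the four left sides is `0`. The right sides: `k₁ = P₁`, `M₁ = ∏_s q · R₁`: `1` (OSD, from Lemma Q);
`k₂ = ∏_s₁ q · P₂` and `M₂ = ∏_s₂ q · R₂` have at least `B` prime factors `7 mod 24`: `0` (NIL). So one of the four pairs leads to an `n` with
`p(n) ≠ ρ(n) + φ(24n-1)`. Page: /team-store/TT_ebc808_P3_helper67.md.

RULES. File `Pool/Agent/<seat>/TPD/XX.lean`, `import Pool.Agent.helper67.TPD.Spec`, `namespace Pool.Agent.TPD`, `open Finset Pool.Agent.EP Pool.Agent.PQ`,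
auxiliary lemmas prefixed `XX_`; other rows only as hypotheses.
-/

set_option autoImplicit false

open Finset PowerSeries

noncomputable section

namespace Pool.Agent.TPD

open Pool.Agent.EP Pool.Agent.PQ
open Pool.Agent.FJ (cl gp)

/-- Additive functions modulo 2. -/
def Add (φ : ℕ → ZMod 2) : Prop := ∀ m n : ℕ, m.Coprime n → φ (m * n) = φ m + φ n

/-- The counting function. -/
def Nf (i a : ℕ) (ρ φ : ℕ → ZMod 2) (X : ℕ) : ℕ :=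
  #{n ∈ range (X + 1) | n % 2 ^ i = a % 2 ^ i ∧ pp n ≠ ρ n + φ (24 * n - 1)}

/-- The data. `L = 24 t 2^b`. -/
structure D4 (i a t κ b : ℕ) (s s₁ s₂ : Finset ℕ) (m c₁ c₂ d₁ d₂ : ℕ) : Prop where
  κ2 : 2 ≤ κ
  b1 : b = 2 * κ + 1
  ib : i + 3 ≤ b
  hs : ∀ q ∈ s, q.Prime ∧ q % 24 = 7
  hs₁ : ∀ q ∈ s₁, q.Prime ∧ q % 24 = 7
  hs₂ : ∀ q ∈ s₂, q.Prime ∧ q % 24 = 7
  cs : #s + 3 = 2 ^ κ
  cs₁ : 2 ^ b ≤ #s₁
  cs₂ : 2 ^ b ≤ #s₂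
  m0 : 0 < m
  cc₁ : c₁.Coprime m
  cc₂ : c₂.Coprime m
  dd₁ : d₁.Coprime m
  dd₂ : d₂.Coprime m
  /-- the numbers `k` -/
  kk : ∀ P₁ P₂ : ℕ, P₁ % m = c₁ % m → P₂ % m = c₂ % m →
    P₁ % 24 = 7 ∧ ((∏ q ∈ s₁, q) * P₂) % 24 = 7 ∧
    P₁ % (24 * t * 2 ^ b) = ((∏ q ∈ s₁, q) * P₂) % (24 * t * 2 ^ b) ∧
    (∀ q ∈ s, q ∣ P₁ + 1 ∧ q ∣ (∏ q ∈ s₁, q) * P₂ + 1) ∧ (∀ q ∈ s₂, q ∣ P₁ + 1 ∧ q ∣ (∏ q ∈ s₁, q) * P₂ + 1)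
  /-- the numbers `M` -/
  MM : ∀ R₁ R₂ : ℕ, R₁ % m = d₁ % m → R₂ % m = d₂ % m →
    R₁ % 24 = 7 ∧ ((∏ q ∈ s, q) * R₁) % 24 = 1 ∧ ((∏ q ∈ s₂, q) * R₂) % 24 = 1 ∧
    ((∏ q ∈ s, q) * R₁) % (24 * t * 2 ^ b) = ((∏ q ∈ s₂, q) * R₂) % (24 * t * 2 ^ b) ∧
    (∀ q ∈ s₁, q ∣ (∏ q ∈ s, q) * R₁ + 1 ∧ q ∣ (∏ q ∈ s₂, q) * R₂ + 1)
  /-- the class of `n` -/
  cls : ∀ P₁ R₁ : ℕ, P₁ % m = c₁ % m → R₁ % m = d₁ % m →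
    (P₁ * ((∏ q ∈ s, q) * R₁) + 1) % 2 ^ b = (24 * a) % 2 ^ b

/-- **CRM** (medium, 180 lines; pure arithmetic: like CRO, CRE of project pq). The data exist. `κ = i + 2`, `b = 2κ + 1`, `L = 24 t 2^b`.
Proof. `s, s₁, s₂`: pairwise disjoint sets of primes `= 7 mod 24` larger than `L` (Dirichlet: `Nat.forall_exists_prime_gt_and_eq_mod`) with `2^κ - 3`, `2^b`, `2^b` elements. `Q, Q₁, Q₂` their products: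
they are prime to `L` and pairwise coprime. `m = L Q Q₁ Q₂`. Write `L = 2^e T`, `T` odd, `3 ∣ T`, `3 ≤ b ≤ e`. The class `k₀` modulo `L`: `-1 mod 2^e`, `1 mod T`; the class `M₀` modulo `L`: `1 - 24 a mod 2^e`, `1 mod T`. Both are
units (`1 - 24 a` is odd), `k₀ = 7 mod 24`, `M₀ = 1 mod 24`. By CRT choose `c₁ = k₀ mod L`, `c₁ = -1 mod Q Q₂`, `c₁ = 1 mod Q₁`; `c₂` with `Q₁ c₂ = k₀ mod L`, `Q₁ c₂ = -1 mod Q Q₂`, `c₂ = 1 mod Q₁`;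
`d₁` with `Q d₁ = M₀ mod L`, `Q d₁ = -1 mod Q₁`, `d₁ = 1 mod Q Q₂`; `d₂` with `Q₂ d₂ = M₀ mod L`, `Q₂ d₂ = -1 mod Q₁`, `d₂ = 1 mod Q Q₂`. All are prime to `m`. `Q = 7^(2^κ - 3) = 7 mod 24` (`7^2 = 1`, the exponent is odd), so
`R₁ = 7 mod 24` (`7 * 7 = 1`). `P₁ Q R₁ + 1 = - (1 - 24 a) + 1 = 24 a mod 2^b`. -/
def CRM_stmt : Prop := ∀ i a t : ℕ, 0 < t →
  ∃ (κ b : ℕ) (s s₁ s₂ : Finset ℕ) (m c₁ c₂ d₁ d₂ : ℕ), D4 i a t κ b s s₁ s₂ m c₁ c₂ d₁ d₂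

/-- **RB4** (short, 60 lines; from OSD, NIL). The right sides. Proof. First: OSD (`R₁ ∉ s` since `R₁` is larger; hypothesis). The others: every summand of `RB b k M` with `k = ∏_s₁ q · P₂` has a first factor
`(vvx^i).coeff k`, `1 ≤ i < 2^b ≤ #s₁`, which is `0` by NIL (`q ∤ P₂` since `P₂` is a prime outside `s₁`; `P₂` is prime to `6`); for `M = ∏_s₂ q · R₂` the second factor `(vvx^(2^b - i)).coeff M` is `0`. -/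
def RB4_stmt : Prop := ∀ (κ b : ℕ) (s s₁ s₂ : Finset ℕ) (P₁ P₂ R₁ R₂ : ℕ), 2 ≤ κ → b = 2 * κ + 1 →
  (∀ q ∈ s, q.Prime ∧ q % 24 = 7) → (∀ q ∈ s₁, q.Prime ∧ q % 24 = 7) → (∀ q ∈ s₂, q.Prime ∧ q % 24 = 7) →
  #s + 3 = 2 ^ κ → 2 ^ b ≤ #s₁ → 2 ^ b ≤ #s₂ → P₁.Prime → P₂.Prime → R₁.Prime → R₂.Prime → P₁ % 24 = 7 → R₁ % 24 = 7 →
  P₂.Coprime 6 → R₂.Coprime 6 → R₁ ∉ s → P₂ ∉ s₁ → R₂ ∉ s₂ →
  RB b P₁ ((∏ q ∈ s, q) * R₁) + RB b P₁ ((∏ q ∈ s₂, q) * R₂) + RB b ((∏ q ∈ s₁, q) * P₂) ((∏ q ∈ s, q) * R₁) +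
    RB b ((∏ q ∈ s₁, q) * P₂) ((∏ q ∈ s₂, q) * R₂) = 1

/-- A pair leads to an `n` with `p(n) ≠ ρ(n) + φ(24n-1)`. -/
def Bad (b A C P R : ℕ) (ρ φ : ℕ → ZMod 2) : Prop :=
  ExcP (2 ^ b) A C P R ∨ ∃ n : ℕ, RelP (2 ^ b) A C P R n ∧ pp n ≠ ρ n + φ (24 * n - 1)

/-- **KY1** (medium, 110 lines; from SUMP). The relation for one pair which is not bad. Proof. SUMP (`A P = 7 mod 24` gives `(A P) % 6 = 1`; `C R = 1 mod 24` is odd). First sum, `u ∈ uB b (C R)`: `2^b u^2 < C R` (`C R` is odd),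
`N = k (M - 2^b u^2)` is `7 (1 - 8) = 23 mod 24` (`2^b = 8 mod 24` for odd `b ≥ 3`, `u^2 = 1 mod 24`), `n = (N+1)/24`, `24 n = N + 1`, RelP holds, so (the pair is not bad) `pp n = ρ n + φ (24 n - 1)`, `24 n - 1 = N`, and `ac N = pp n` (definition of
`ac`); `k = A P` is prime to `M - 2^b u^2` (`A` by hypothesis, `P` does not divide it since the pair is not exceptional), so `φ N = φ k + φ (M - 2^b u^2)`. Second sum the same: `N = (k - 2^b u^2) M = (7 - 8) * 1 = 23 mod 24`. -/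
def KY1_stmt : Prop := ∀ (b A C P R : ℕ) (ρ φ : ℕ → ZMod 2), b % 2 = 1 → 3 ≤ b → P.Prime → R.Prime →
  (A * P) % 24 = 7 → (C * R) % 24 = 1 → Add φ → ¬ Bad b A C P R ρ φ →
  (∀ u : ℕ, 2 ^ b * u ^ 2 < C * R → Nat.Coprime A (C * R - 2 ^ b * u ^ 2)) →
  (∀ u : ℕ, 2 ^ b * u ^ 2 < A * P → Nat.Coprime (A * P - 2 ^ b * u ^ 2) C) →
  (∑ u ∈ uB b (C * R), (ρ ((A * P * (C * R - 2 ^ b * u ^ 2) + 1) / 24) + φ (A * P) + φ (C * R - 2 ^ b * u ^ 2))) +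
    (∑ u ∈ uB b (A * P), (ρ (((A * P - 2 ^ b * u ^ 2) * (C * R) + 1) / 24) + φ (A * P - 2 ^ b * u ^ 2) + φ (C * R))) =
    RB b (A * P) (C * R)

/-- **KY4** (short-medium, 90 lines; from KY1, RPE). Quadruples. Proof. Suppose that no pair is bad; add the four relations KY1. The `ρ`-part of the first sum is the same for `k₁` and `k₂` (RPE: `k₁ m = k₂ m mod 24 t`, and these numbers are
`23 mod 24`), so it cancels between `(k₁, M)` and `(k₂, M)`, as well as `∑ φ (M - ..)`; what remains is `#(uB b M₁) (φ k₁ + φ k₂) + #(uB b M₂) (φ k₁ + φ k₂) = 0` as the cardinalities are even (`Finset.sum_const`, `nsmul`, even times anything is `0` in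
`ZMod 2`). The second sums: the same with the roles of `k` and `M`. So the sum of the four right sides is `0`, a contradiction. -/
def KY4_stmt : Prop := ∀ (b t A₁ A₂ C₁ C₂ P₁ P₂ R₁ R₂ : ℕ) (ρ φ : ℕ → ZMod 2), b % 2 = 1 → 3 ≤ b → 0 < t → (∀ n, ρ (n + t) = ρ n) → Add φ →
  P₁.Prime → P₂.Prime → R₁.Prime → R₂.Prime →
  (A₁ * P₁) % 24 = 7 → (A₂ * P₂) % 24 = 7 → (C₁ * R₁) % 24 = 1 → (C₂ * R₂) % 24 = 1 →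
  (A₁ * P₁) % (24 * t) = (A₂ * P₂) % (24 * t) → (C₁ * R₁) % (24 * t) = (C₂ * R₂) % (24 * t) →
  Even #(uB b (A₁ * P₁)) → Even #(uB b (A₂ * P₂)) → Even #(uB b (C₁ * R₁)) → Even #(uB b (C₂ * R₂)) →
  (∀ A ∈ ({A₁, A₂} : Finset ℕ), ∀ N ∈ ({C₁ * R₁, C₂ * R₂} : Finset ℕ), ∀ u : ℕ, 2 ^ b * u ^ 2 < N → Nat.Coprime A (N - 2 ^ b * u ^ 2)) →
  (∀ C ∈ ({C₁, C₂} : Finset ℕ), ∀ N ∈ ({A₁ * P₁, A₂ * P₂} : Finset ℕ), ∀ u : ℕ, 2 ^ b * u ^ 2 < N → Nat.Coprime (N - 2 ^ b * u ^ 2) C) →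
  RB b (A₁ * P₁) (C₁ * R₁) + RB b (A₁ * P₁) (C₂ * R₂) + RB b (A₂ * P₂) (C₁ * R₁) + RB b (A₂ * P₂) (C₂ * R₂) = 1 →
  Bad b A₁ C₁ P₁ R₁ ρ φ ∨ Bad b A₁ C₂ P₁ R₂ ρ φ ∨ Bad b A₂ C₁ P₂ R₁ ρ φ ∨ Bad b A₂ C₂ P₂ R₂ ρ φ

/-- **KYD** (short, 70 lines; from KY4, RB4, NR). The quadruples of the data. Proof. KY4 with `A₁ = 1`, `A₂ = ∏_s₁ q`, `C₁ = ∏_s q`, `C₂ = ∏_s₂ q`. Coprimality: a prime divisor of `A₂` is some `q ∈ s₁`, `q ∣ M + 1` for both `M` (`MM`), NR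
(`q = 7 mod 8`); a prime divisor of `C₁` resp. `C₂` is some `q` in `s` resp. `s₂`, `q ∣ k + 1` for both `k` (`kk`), NR. The classes modulo `24 t` follow from those modulo `24 t 2^b`. RB4: the primes are prime to `6` (`P₂`: `∏ q · P₂ = 7 mod 24`). -/
def KYD_stmt : Prop := ∀ (i a t κ b : ℕ) (s s₁ s₂ : Finset ℕ) (m c₁ c₂ d₁ d₂ : ℕ) (ρ φ : ℕ → ZMod 2), 0 < t → (∀ n, ρ (n + t) = ρ n) → Add φ →
  D4 i a t κ b s s₁ s₂ m c₁ c₂ d₁ d₂ → ∀ P₁ P₂ R₁ R₂ : ℕ, P₁.Prime → P₂.Prime → R₁.Prime → R₂.Prime →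
  P₁ % m = c₁ % m → P₂ % m = c₂ % m → R₁ % m = d₁ % m → R₂ % m = d₂ % m → R₁ ∉ s → P₂ ∉ s₁ → R₂ ∉ s₂ →
  Even #(uB b (1 * P₁)) → Even #(uB b ((∏ q ∈ s₁, q) * P₂)) → Even #(uB b ((∏ q ∈ s, q) * R₁)) → Even #(uB b ((∏ q ∈ s₂, q) * R₂)) →
  Bad b 1 (∏ q ∈ s, q) P₁ R₁ ρ φ ∨ Bad b 1 (∏ q ∈ s₂, q) P₁ R₂ ρ φ ∨
    Bad b (∏ q ∈ s₁, q) (∏ q ∈ s, q) P₂ R₁ ρ φ ∨ Bad b (∏ q ∈ s₁, q) (∏ q ∈ s₂, q) P₂ R₂ ρ φ

/-! ### Primes in windows -/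

/-- **W2Q** (medium: copy of TPC.W2, Pool/Agent/helper93/TPC/W2.lean, with `Q M` in place of `M`; TPC.W2 is the case `Q = 1`). Many cells lie in windows `B (v-1)^2 ≤ Q M < B v^2` with `v = c mod D`. Proof. `K = ⌈4 Q √x⌉`, so the cells have length at most
`√x/(2Q)`, while the windows in `(x, 2x]` have length `B (2v-1)/Q ≥ (2 √(B Q x))/Q ≥ 2 √x/Q`. The rest as in W2 (`K ≤ 5 Q √x ≤ x^(3/5)` for large `x`). -/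
def W2Q_stmt : Prop := ∀ B Q D c : ℕ, 0 < B → 0 < Q → 0 < D → ∃ δ : ℝ, 0 < δ ∧ ∃ x₀ : ℕ, ∀ x : ℕ, x₀ ≤ x → ∃ K : ℕ, 1 ≤ K ∧
  (K : ℝ) ≤ (x : ℝ) ^ (3 / 5 : ℝ) ∧ ∃ I ⊆ range K, δ * x ≤ ∑ i ∈ I, (#(cl x K i) : ℝ) ∧
    ∀ i ∈ I, ∀ M : ℕ, (M : ℤ) ∈ cl x K i → (Nat.sqrt (Q * M / B) + 1) % D = c % D

/-- **EVW** (short, 50 lines). Proof. `uB b N` is the set of the `u` prime to `6` in `range v`, `v = Nat.sqrt (N / 2^b) + 1` (`2^b u^2 ≤ N` iff `u ≤ Nat.sqrt (N/2^b)`). If `v = 12 w` there are `4 w` of them (induction on `w`: each block of `12` contains the four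
classes `1, 5, 7, 11`; or `Nat.count_modEq_card`, `Nat.filter_coprime_Ico_eq_totient`-like lemmas). -/
def EVW_stmt : Prop := ∀ b N : ℕ, (Nat.sqrt (N / 2 ^ b) + 1) % 12 = 0 → Even #(uB b N)

/-- **WPQ** (short, 60 lines; from TPC.W1, W2Q, EVW). Proof. W2Q with `B = 2^b`, `D = 12`, `c = 0`, then W1 with its `δ`; `c₀ = δ/(2m)`; every prime counted by W1 is in a cell of `I`, EVW with `N = Q P`. -/
def WPQ_stmt : Prop := ∀ b Q m c : ℕ, 0 < Q → 0 < m → c.Coprime m → ∃ c₀ : ℝ, 0 < c₀ ∧ ∃ x₀ : ℕ, ∀ x : ℕ, x₀ ≤ x →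
  c₀ * x / Real.log x ≤ (#{P ∈ Ioc x (2 * x) | P.Prime ∧ P % m = c % m ∧ Even #(uB b (Q * P))} : ℝ)

/-! ### Counting -/

/-- **QUA** (short-medium, 70 lines). Proof. Replace the four sets by subsets with exactly `N` elements (`Finset.exists_subset_card_eq`). The `N^4` quadruples are covered by four sets; those with `(a₁, c₁) ∈ E₁₁` are at most `#E₁₁ N^2` (map to `(a₁, c₁)`, the
fibres have `N^2` elements), etc. So `N^4 ≤ N^2 (#E₁₁ + ..)`; cancel `N^2` (`N = 0` is trivial). -/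
def QUA_stmt : Prop := ∀ (A₁ A₂ C₁ C₂ : Finset ℕ) (E₁₁ E₁₂ E₂₁ E₂₂ : Finset (ℕ × ℕ)) (N : ℕ), N ≤ #A₁ → N ≤ #A₂ → N ≤ #C₁ → N ≤ #C₂ →
  (∀ a₁ ∈ A₁, ∀ a₂ ∈ A₂, ∀ x₁ ∈ C₁, ∀ x₂ ∈ C₂, (a₁, x₁) ∈ E₁₁ ∨ (a₁, x₂) ∈ E₁₂ ∨ (a₂, x₁) ∈ E₂₁ ∨ (a₂, x₂) ∈ E₂₂) →
  N ^ 2 ≤ #E₁₁ + #E₁₂ + #E₂₁ + #E₂₂

/-- **XFU** (short: copy of the row XFR of project pq with constants independent of `f`). -/
def XFU_stmt : Prop := ∀ (D y₀ : ℕ) (c₁ : ℝ), 0 < D → 0 < c₁ → ∃ c : ℝ, 0 < c ∧ ∃ X₀ : ℕ, ∀ f : ℕ → ℕ, Monotone f →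
  (∀ y : ℕ, y₀ ≤ y → c₁ * (y : ℝ) ^ (3 / 2 : ℝ) / Real.log y ^ 2 ≤ (f (D * y ^ 2) : ℝ)) →
  ∀ X : ℕ, X₀ ≤ X → c * (X : ℝ) ^ (3 / 4 : ℝ) / Real.log X ^ 2 ≤ (f X : ℝ)

open Classical in
/-- **CNQ** (medium, 120 lines; from CNL of project pq, QUA, WPQ, KYD, CLR). Proof. Fix the data. WPQ for `(1, c₁)`, `(∏_s₁ q, c₂)`, `(∏_s q, d₁)`, `(∏_s₂ q, d₂)`: common `c₀ > 0`. For large `y` (larger than all elements of `s, s₁, s₂`) the four sets `A₁, A₂, C₁, C₂` of primes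
of `(y, 2y]` have at least `N = ⌊c₀ y/log y⌋₊` elements, `N^2/4 ≥ (c₀^2/16) y^2/(log y)^2`. `E_ij` := the bad pairs of `A_i ×ˢ C_j`. By KYD and QUA `N^2 ≤ ∑ #E_ij`, so one `E_ij` has at least `N^2/4` elements. CNL for the corresponding `(2^b, Q₁, Q₂)` with
`T = E_ij`, `S` = the set counted by `Nf i a ρ φ (D y^2)`, `D = ∏_s q · ∏_s₁ q · ∏_s₂ q`: a bad pair which is not exceptional leads to an `n` with `p(n) ≠ ρ(n) + φ(24n-1)`; `n ≤ Q₁ Q₂ y^2 ≤ D y^2` (`24 n ≤ 4 Q₁ Q₂ y^2 + 1`); `n = a mod 2^i` by CLR (`k M` has the same class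
modulo `2^b` for all four pairs; `cls`). `c₁` = the minimum of the four constants of CNL (they do not depend on `φ`). -/
def CNQ_stmt : Prop := ∀ (i a t : ℕ) (ρ : ℕ → ZMod 2), 0 < t → (∀ n, ρ (n + t) = ρ n) → ∃ (D y₀ : ℕ) (c₁ : ℝ), 0 < D ∧ 0 < c₁ ∧
  ∀ φ : ℕ → ZMod 2, Add φ → ∀ y : ℕ, y₀ ≤ y → c₁ * (y : ℝ) ^ (3 / 2 : ℝ) / Real.log y ^ 2 ≤ (Nf i a ρ φ (D * y ^ 2) : ℝ)

/-- **MAIN** (from CNQ, XFU; done by helper67). -/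
def MAIN_stmt : Prop := ∀ (i a t : ℕ) (ρ : ℕ → ZMod 2), 0 < t → (∀ n, ρ (n + t) = ρ n) → ∃ c : ℝ, 0 < c ∧ ∃ X₀ : ℕ,
  ∀ φ : ℕ → ZMod 2, Add φ → ∀ X : ℕ, X₀ ≤ X → c * (X : ℝ) ^ (3 / 4 : ℝ) / Real.log X ^ 2 ≤ (Nf i a ρ φ X : ℝ)

theorem MAIN_of (hCNQ : CNQ_stmt) (hXFU : XFU_stmt) : MAIN_stmt := by
  intro i a t ρ ht hρ
  obtain ⟨D, y₀, c₁, hD, hc₁, h⟩ := hCNQ i a t ρ ht hρ
  obtain ⟨c, hc, X₀, h2⟩ := hXFU D y₀ c₁ hD hc₁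
  refine ⟨c, hc, X₀, fun φ hφ X hX => h2 (Nf i a ρ φ) ?_ (h φ hφ) X hX⟩
  intro X Y hXY
  unfold Nf
  refine Finset.card_le_card fun n hn => ?_
  simp only [mem_filter, mem_range] at hn ⊢
  exact ⟨by omega, hn.2⟩

end Pool.Agent.TPD
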